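import Pool.Agent.H82.NR.Pol
import Pool.Agent.H18N.FAMNV
import Pool.Agent.H18N.All
import Pool.Agent.H18N.CLSX
import Pool.Agent.H18N.Gdle
import Pool.Agent.H18N.Minw

/-!
# Near every elliptic curve over `ℚ`, in the naive height `max (4 |a| ^ 3) (27 b ^ 2)` (helper82)

The case `F = ℚ` of project JN (`H18N`), for the boxes of the naive height (`H18N/REGV.lean`,
`H18N/FAMNV.lean`), in terms of integers.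
-/

set_option autoImplicit false
set_option linter.all false

open Polynomial NumberField IsDedekindDomain
open Pool.Agent.N783.PF
open Pool.Agent.H18N
open Pool.Agent.H18N.Per
open Pool.Agent.H18G (twf SelLe)
open Pool.Agent.H68K.PR (pr2 Gd)
open Pool.Agent.H93PR.QR (Fm Pq Pq_prime Pq_ne mem_Pq mem_Pq1 exists_Pq io cast_ne)
open scoped Classical

namespace Pool.Agent.H82.NR

/-- The law near every curve, for the boxes with weights. -/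
theorem famnv : S_FAMNV :=
  FAMNV.t a_BALW EXVW.t REGV.t REGV.cmp DSJW.t Pool.Agent.H10PR.eul

theorem irr_fml {g W : ℕ} {f₁ f : (𝓞 ℚ)[X]} (hW : GoodW g W f₁) (hm : f.Monic)
    (hc : Cg (sp ℚ W) f f₁) : Irreducible (fF f) := by
  obtain ⟨𝔭, hp, hWp, hirr⟩ := hW.irr
  haveI := hp
  have e : rd 𝔭 f = rd 𝔭 f₁ := by
    ext j
    rw [coeff_map, coeff_map]
    exact Ideal.Quotient.eq.2 ((cg_mono ((Ideal.span_singleton_le_iff_mem _).2 hWp) hc) j)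
  have h0 : Irreducible (f.map (Ideal.Quotient.mk 𝔭)) := by
    show Irreducible (rd 𝔭 f)
    rw [e]
    exact hirr
  have h1 : Irreducible f := hm.irreducible_of_irreducible_map _ _ h0
  exact (hm.irreducible_iff_irreducible_map_fraction_map (K := ℚ)).1 h1

theorem gd_of {W : ℕ} {f₁ : (𝓞 ℚ)[X]} (hW : GoodW 1 W f₁) {T : Finset ℕ} {𝔮 : ℕ → Ideal (𝓞 ℚ)}
    {r P : ℕ → (𝓞 ℚ)[X]} {𝒥 : Finset (Finset ℕ)} (hT : GoodS 1 W T 𝔮 r P)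
    (hT1 : ∀ q ∈ T, q ≡ 1 [MOD W]) (hJ : ∀ J ∈ 𝒥, J ⊆ T) {n : ℕ} {c : ℤ × ℤ}
    (h : pol c ∈ FmlR 1 W f₁ T P 𝔮 𝒥 n) : ∃ m ≤ n, Gd m (io c) := by
  obtain ⟨J, hJJ, f, hb, he, hr⟩ := h
  have h1 : SelLe n (twf J f) := rels 1 W ℚ f T J 𝔮 r P le_rfl hb.sqf hT hT1 hb.con (hJ J hJJ) n hr
  rw [← he] at h1
  have h2 : pol c ∈ FmlW 1 W f₁ T P 𝒥 := ⟨J, hJJ, f, hb, he⟩
  have h3 := (fml_iff le_rfl hW hT hJ (pol c)).2 h2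
  have hcg : Cg (sp ℚ W) (pol c) f₁ := rr_cg hT1 hJ hW.mon h3.mem
  obtain ⟨m, hm, hg⟩ := Pool.Agent.H18N.EC.gdle (pol_mon c) (pol_deg c) (pol_c2 c)
    (irr_fml hW (pol_mon c) hcg) h1
  refine ⟨m, hm, ?_⟩
  rw [pol_c1, pol_c0] at hg
  exact hg

theorem md_pos {g W : ℕ} (hW : 0 < W) {T : Finset ℕ} (hT : ∀ q ∈ T, 0 < q) : 0 < md g W T :=
  Nat.mul_pos hW (pow_pos (Finset.prod_pos hT) _)

theorem fm_iff' {W : ℕ} {f₁ : (𝓞 ℚ)[X]} (hW : GoodW 1 W f₁) {T : Finset ℕ}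
    {𝔮 : ℕ → Ideal (𝓞 ℚ)} {r P : ℕ → (𝓞 ℚ)[X]} {𝒥 : Finset (Finset ℕ)} (hT : GoodS 1 W T 𝔮 r P)
    (hJ : ∀ J ∈ 𝒥, J ⊆ T) (c : ℤ × ℤ) :
    c ∈ Fm (md 1 W T) {c | pol c ∈ RR 1 W f₁ T P 𝒥 (md 1 W T)} ↔ pol c ∈ FmlW 1 W f₁ T P 𝒥 := by
  rw [← fml_iff le_rfl hW hT hJ]
  have hMc : ∀ q : ℕ, ((md 1 W T : ℕ) : 𝓞 ℚ) ∈ Pq q ↔ q ∣ md 1 W T := by
    intro q
    have h1 : ((md 1 W T : ℕ) : 𝓞 ℚ) = (((md 1 W T : ℕ) : ℤ) : 𝓞 ℚ) := by push_cast; rfl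
    rw [h1, mem_Pq1]
    exact Int.natCast_dvd_natCast
  constructor
  · rintro ⟨h1, h2, h3⟩
    refine ⟨pol_mon c, pol_deg c, pol_c2 c, h1, ?_, ?_⟩
    · rw [dsc_pol]
      exact cast_ne.2 h2
    · intro v hv
      obtain ⟨q, hq, hvq⟩ := exists_Pq v.isPrime v.ne_bot
      rw [hvq] at hv ⊢
      rw [hMc] at hv
      rw [dsc_pol, mem_Pq]
      exact h3 q hq hv
  · intro h
    refine ⟨h.mem, ?_, ?_⟩
    · intro h0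
      apply h.ne
      rw [dsc_pol, h0, Int.cast_zero]
    · intro q hq hqM h0
      refine h.sqf ⟨Pq q, Pq_prime hq, Pq_ne hq⟩ ?_ ?_
      · show ((md 1 W T : ℕ) : 𝓞 ℚ) ∉ Pq q
        rw [hMc]
        exact hqM
      · show Pool.Agent.N783.PF.dsc 1 (pol c) ∈ Pq q ^ 2
        rw [dsc_pol, mem_Pq]
        exact h0

/-- minimality of the pair and of the polynomial -/
theorem min_iff {c : ℤ × ℤ} {q : ℕ} :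
    (∀ j ≤ 2 * 1, (pol c).coeff j ∈ Pq q ^ (2 * (2 * 1 + 1 - j))) ↔
      ((q : ℤ) ^ 4 ∣ c.1 ∧ (q : ℤ) ^ 6 ∣ c.2) := by
  constructor
  · intro h
    have h1 := h 1 (by norm_num)
    have h0 := h 0 (by norm_num)
    rw [pol_c1, mem_Pq] at h1
    rw [pol_c0, mem_Pq] at h0
    exact ⟨h1, h0⟩
  · rintro ⟨h1, h0⟩ j hj
    rcases Nat.lt_or_ge j 1 with h | h
    · obtain rfl : j = 0 := by omega
      rw [pol_c0, mem_Pq]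
      exact h0
    · rcases Nat.lt_or_ge j 2 with h' | h'
      · obtain rfl : j = 1 := by omega
        rw [pol_c1, mem_Pq]
        exact h1
      · obtain rfl : j = 2 := by omega
        rw [pol_c2]
        exact zero_mem _

theorem root12 {Z X : ℝ} (hZ : 0 ≤ Z) (h : Z ^ 6 ≤ X) : Z ≤ (X ^ ((1 : ℝ) / 12)) ^ 2 := by
  have h0 : (0 : ℝ) ≤ Z ^ 6 := by positivity
  have e : Z = ((Z ^ 6) ^ ((1 : ℝ) / 12)) ^ 2 := by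
    rw [← Real.rpow_natCast Z 6, ← Real.rpow_mul hZ, ← Real.rpow_natCast, ← Real.rpow_mul hZ]
    norm_num
  rw [e]
  exact pow_le_pow_left₀ (by positivity) (Real.rpow_le_rpow h0 h (by norm_num)) _

/-- **The family.** -/
theorem famv (c₀ : ℤ × ℤ)
    (hmin : ∀ q : ℕ, q.Prime → ¬ ((q : ℤ) ^ 4 ∣ c₀.1 ∧ (q : ℤ) ^ 6 ∣ c₀.2))
    (N : ℕ) (hN : 0 < N) (ε : ℝ) (hε : 0 < ε) : ∃ (M : ℕ) (R : Set (ℤ × ℤ)), 0 < M ∧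
    (∀ c c' : ℤ × ℤ, c ∈ R → (M : ℤ) ∣ c'.1 - c.1 → (M : ℤ) ∣ c'.2 - c.2 → c' ∈ R) ∧
    (∀ c ∈ R, (N : ℤ) ∣ c.1 - c₀.1 ∧ (N : ℤ) ∣ c.2 - c₀.2) ∧
    (∀ c ∈ Fm M R, ∀ q : ℕ, q.Prime → ¬ ((q : ℤ) ^ 4 ∣ c.1 ∧ (q : ℤ) ^ 6 ∣ c.2)) ∧
    ∃ (δ X₀ : ℝ), 0 < δ ∧ 0 < X₀ ∧ ∀ X : ℝ, X₀ ≤ X →
    0 < {c : ℤ × ℤ | (Pool.Agent.H93PR.QR.height c : ℝ) ≤ X ∧ c ∈ Fm M R}.ncard ∧
    δ * ({c : ℤ × ℤ | (Pool.Agent.H93PR.QR.height c : ℝ) ≤ X}.ncard : ℝ) ≤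
      ({c : ℤ × ℤ | (Pool.Agent.H93PR.QR.height c : ℝ) ≤ X ∧ c ∈ Fm M R}.ncard : ℝ) ∧
    ∀ k : ℕ, ({c : ℤ × ℤ | (Pool.Agent.H93PR.QR.height c : ℝ) ≤ X ∧ c ∈ Fm M R ∧
        ¬ ∃ m ≤ 2 ^ k, Gd m (io c)}.ncard : ℝ) ≤
      (1 - ∑ j ∈ Finset.range (k + 1), pr2 j + ε) *
      ({c : ℤ × ℤ | (Pool.Agent.H93PR.QR.height c : ℝ) ≤ X ∧ c ∈ Fm M R}.ncard : ℝ) := by
  obtain ⟨K, hK⟩ := famnv 1 ωn ℚ le_rfl ωn_pos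
  obtain ⟨W, f₁, hNW, hKW, hf₁, hW, hsep, -⟩ := CLSX.t 1 K (N ^ (2 * (2 * 1 + 1))) ℚ (pol c₀) le_rfl
    (pow_pos hN _) (pol_mon c₀) (pol_deg c₀) (pol_c2 c₀)
  obtain ⟨T, 𝔮, r, P, 𝒥, hT, hT1, hJ, δ, Y₀, hδ, hfam⟩ := hK W f₁ hKW hW ε hε
  have hTp : ∀ q ∈ T, 0 < q := fun q hq => (hT q hq).1.pos
  obtain ⟨M, hM⟩ : ∃ M : ℕ, M = md 1 W T := ⟨_, rfl⟩
  obtain ⟨R, hR⟩ : ∃ R : Set (ℤ × ℤ), R = {c | pol c ∈ RR 1 W f₁ T P 𝒥 M} := ⟨_, rfl⟩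
  have hfm : ∀ c : ℤ × ℤ, c ∈ Fm M R ↔ pol c ∈ FmlW 1 W f₁ T P 𝒥 := by
    intro c
    rw [hR, hM]
    exact fm_iff' hW hT hJ c
  refine ⟨M, R, ?_, ?_, ?_, ?_, δ, (max Y₀ 1) ^ 6, hδ, by positivity, ?_⟩
  · rw [hM]
    exact md_pos hW.pos hTp
  · intro c c' hc h1 h2
    rw [hR] at hc ⊢
    exact per_rr 1 W f₁ T P 𝒥 M (pol c) (pol c') hc (cg_pol.2 ⟨h1, h2⟩)
  · intro c hc
    rw [hR, hM] at hc
    have h1 : Cg (sp ℚ W) (pol c) f₁ := rr_cg hT1 hJ hW.mon hc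
    have hNW' : N ∣ W := (Dvd.intro_left (N ^ 5) (by ring)).trans hNW
    have hN6 : N ∣ N ^ (2 * (2 * 1 + 1)) := Dvd.intro_left (N ^ 5) (by ring)
    have h2 : Cg (sp ℚ N) (pol c) (pol c₀) :=
      cg_trans (cg_mono (sp_le hNW') h1) (cg_mono (sp_le hN6) hf₁)
    exact cg_pol.1 h2
  · intro c hc q hq hq'
    have h1 := min_fml le_rfl hN hW hNW hf₁ (fun 𝔭 hp hN𝔭 hall => by
      have h0 : 𝔭 ≠ ⊥ := by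
        rintro rfl
        rw [Ideal.mem_bot] at hN𝔭
        exact hN.ne' (by exact_mod_cast hN𝔭)
      obtain ⟨q, hq, rfl⟩ := exists_Pq hp h0
      exact hmin q hq (min_iff.1 hall)) hsep hT hT1 hJ ((hfm c).1 hc)
    exact h1 (Pq q) (Pq_prime hq) (Pq_ne hq) (min_iff.2 hq')
  · intro X hX
    have hZ : (1 : ℝ) ≤ max Y₀ 1 := le_max_right _ _
    have hX0 : 0 < X := lt_of_lt_of_le (by positivity) hX
    have hY : Y₀ ≤ (X ^ ((1 : ℝ) / 12)) ^ 2 :=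
      (le_max_left Y₀ 1).trans (root12 (zero_le_one.trans hZ) hX)
    obtain ⟨a1, a2, a3⟩ := (hfam ((X ^ ((1 : ℝ) / 12)) ^ 2)).2 hY
    have e0 : {f : (𝓞 ℚ)[X] | HtV 1 ωn ((X ^ ((1 : ℝ) / 12)) ^ 2) f}.ncard =
        {c : ℤ × ℤ | (Pool.Agent.H93PR.QR.height c : ℝ) ≤ X}.ncard := by
      have := ncard_pol hX0 fun _ => True
      simpa only [and_true] using this
    have e1 : {f : (𝓞 ℚ)[X] | HtV 1 ωn ((X ^ ((1 : ℝ) / 12)) ^ 2) f ∧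
        f ∈ FmlW 1 W f₁ T P 𝒥}.ncard =
        {c : ℤ × ℤ | (Pool.Agent.H93PR.QR.height c : ℝ) ≤ X ∧ c ∈ Fm M R}.ncard := by
      rw [ncard_pol hX0 (fun f => f ∈ FmlW 1 W f₁ T P 𝒥)]
      simp only [hfm]
    rw [e1] at a1 a2
    rw [e0] at a2
    refine ⟨a1, a2, fun k => ?_⟩
    have a4 := a3 k
    rw [e1] at a4
    refine le_trans ?_ a4
    rw [ncard_pol hX0 (fun f => f ∈ FmlW 1 W f₁ T P 𝒥 ∧ f ∉ FmlR 1 W f₁ T P 𝔮 𝒥 (2 ^ k))]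
    have hsub : {c : ℤ × ℤ | (Pool.Agent.H93PR.QR.height c : ℝ) ≤ X ∧ c ∈ Fm M R ∧
        ¬ ∃ m ≤ 2 ^ k, Gd m (io c)} ⊆ {c : ℤ × ℤ | (Pool.Agent.H93PR.QR.height c : ℝ) ≤ X ∧
        pol c ∈ FmlW 1 W f₁ T P 𝒥 ∧ pol c ∉ FmlR 1 W f₁ T P 𝔮 𝒥 (2 ^ k)} := by
      rintro c ⟨h1, h2, h3⟩
      exact ⟨h1, (hfm c).1 h2, fun h4 => h3 (gd_of hW hT hT1 hJ h4)⟩
    exact_mod_cast Set.ncard_le_ncard hsub
      ((Pool.Agent.H93PR.QR.height_finite X).subset fun c hc => hc.1)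

end Pool.Agent.H82.NR
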