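import Pool.Agent.H18N.REGV
import Pool.Agent.H93PR.QR3

/-!
# The elliptic curves over `ℚ` as the polynomials `x ^ 3 + a x + b` over `𝓞 ℚ` (helper82)
-/

set_option autoImplicit false
set_option linter.all false

open Polynomial NumberField IsDedekindDomain
open Pool.Agent.N783.PF
open Pool.Agent.H18N (HtV)
open Pool.Agent.H93PR.QR (cast_surj cast_inj place_apply pow_le_aux dsc)

namespace Pool.Agent.H82.NR

/-- The discriminant of a cubic. -/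
theorem dsc_cub {F : Type} [Field F] [NumberField F] {f : (𝓞 F)[X]} (hm : f.Monic)
    (hd : f.natDegree = 3) (ht : f.coeff 2 = 0) :
    Pool.Agent.N783.PF.dsc 1 f = 4 * f.coeff 1 ^ 3 + 27 * f.coeff 0 ^ 2 := by
  have hdeg : f.degree = 3 := by
    rw [degree_eq_natDegree hm.ne_zero, hd]
    rfl
  have h1 := resultant_deriv (f := f) (by rw [hdeg]; decide)
  have h3 : f.coeff 3 = 1 := by rw [← hd]; exact hm
  rw [discr_of_degree_eq_three hdeg, hm.leadingCoeff, hd, ht, h3] at h1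
  have h2 : Pool.Agent.N783.PF.dsc 1 f = f.resultant (derivative f) 3 (3 - 1) := rfl
  rw [h2, h1]
  norm_num
  ring

/-- `x ^ 3 + a x + b` -/
noncomputable def pol (c : ℤ × ℤ) : (𝓞 ℚ)[X] :=
  X ^ 3 + (C ((c.1 : ℤ) : 𝓞 ℚ) * X + C ((c.2 : ℤ) : 𝓞 ℚ))

theorem deg_low (a b : 𝓞 ℚ) : (C a * X + C b : (𝓞 ℚ)[X]).degree < ((3 : ℕ) : WithBot ℕ) :=
  (degree_linear_le).trans_lt (by decide)

theorem pol_mon (c : ℤ × ℤ) : (pol c).Monic := monic_X_pow_add (deg_low _ _)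

theorem pol_deg (c : ℤ × ℤ) : (pol c).natDegree = 3 := by
  unfold pol
  rw [natDegree_add_eq_left_of_degree_lt (by rw [degree_X_pow]; exact deg_low _ _),
    natDegree_X_pow]

theorem pol_c0 (c : ℤ × ℤ) : (pol c).coeff 0 = ((c.2 : ℤ) : 𝓞 ℚ) := by
  unfold pol
  simp

theorem pol_c1 (c : ℤ × ℤ) : (pol c).coeff 1 = ((c.1 : ℤ) : 𝓞 ℚ) := by
  unfold pol
  rw [coeff_add, coeff_add, coeff_X_pow, coeff_C_mul, coeff_X_one, coeff_C, if_neg (by norm_num),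
    if_neg (by norm_num)]
  ring

theorem pol_c2 (c : ℤ × ℤ) : (pol c).coeff 2 = 0 := by
  unfold pol
  rw [coeff_add, coeff_add, coeff_X_pow, coeff_C_mul, coeff_X, coeff_C, if_neg (by norm_num),
    if_neg (by norm_num), if_neg (by norm_num)]
  ring

theorem pol_big (c : ℤ × ℤ) {j : ℕ} (hj : 3 < j) : (pol c).coeff j = 0 :=
  coeff_eq_zero_of_natDegree_lt (by rw [pol_deg]; exact hj)

theorem pol_c3 (c : ℤ × ℤ) : (pol c).coeff 3 = 1 := by
  have := pol_mon c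
  rw [Monic, leadingCoeff, pol_deg] at this
  exact this

theorem pol_inj : Function.Injective pol := by
  intro c c' h
  have h0 := congrArg (fun f => coeff f 0) h
  have h1 := congrArg (fun f => coeff f 1) h
  simp only [pol_c0] at h0
  simp only [pol_c1] at h1
  exact Prod.ext (cast_inj h1) (cast_inj h0)

theorem ext_cub {f f' : (𝓞 ℚ)[X]} (h1 : f.Monic) (h2 : f.natDegree = 3) (h3 : f.coeff 2 = 0)
    (h1' : f'.Monic) (h2' : f'.natDegree = 3) (h3' : f'.coeff 2 = 0) (h4 : f.coeff 0 = f'.coeff 0)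
    (h5 : f.coeff 1 = f'.coeff 1) : f = f' := by
  refine Pool.Agent.H18G.REGG.inj_of (g := 1) h1 h2 h3 h1' h2' h3' fun j => ?_
  have hj := j.2
  rcases Nat.lt_or_ge (j : ℕ) 1 with h | h
  · have e : (j : ℕ) = 0 := by omega
    rw [e]
    exact h4
  · have e : (j : ℕ) = 1 := by omega
    rw [e]
    exact h5

theorem pol_surj {f : (𝓞 ℚ)[X]} (h1 : f.Monic) (h2 : f.natDegree = 3) (h3 : f.coeff 2 = 0) :
    ∃ c, pol c = f := by
  obtain ⟨a, ha⟩ := cast_surj (f.coeff 1)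
  obtain ⟨b, hb⟩ := cast_surj (f.coeff 0)
  refine ⟨(a, b), ext_cub (pol_mon _) (pol_deg _) (pol_c2 _) h1 h2 h3 ?_ ?_⟩
  · rw [pol_c0, hb]
  · rw [pol_c1, ha]

theorem dsc_pol (c : ℤ × ℤ) :
    Pool.Agent.N783.PF.dsc 1 (pol c) = ((Pool.Agent.H93PR.QR.dsc c : ℤ) : 𝓞 ℚ) := by
  rw [dsc_cub (pol_mon c) (pol_deg c) (pol_c2 c), pol_c0, pol_c1]
  unfold Pool.Agent.H93PR.QR.dsc
  push_cast
  ring

/-- The congruences. -/
theorem cg_pol {M : ℕ} {c c' : ℤ × ℤ} :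
    Cg (sp ℚ M) (pol c') (pol c) ↔ (M : ℤ) ∣ c'.1 - c.1 ∧ (M : ℤ) ∣ c'.2 - c.2 := by
  have hM : (M : 𝓞 ℚ) = ((M : ℤ) : 𝓞 ℚ) := by push_cast; rfl
  have hmem : ∀ n : ℤ, ((n : ℤ) : 𝓞 ℚ) ∈ sp ℚ M ↔ (M : ℤ) ∣ n := by
    intro n
    rw [sp, Ideal.mem_span_singleton, hM, Pool.Agent.H93PR.QR.dvd_iff]
  constructor
  · intro h
    have h0 := h 0
    have h1 := h 1
    rw [pol_c0, pol_c0, ← Int.cast_sub, hmem] at h0
    rw [pol_c1, pol_c1, ← Int.cast_sub, hmem] at h1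
    exact ⟨h1, h0⟩
  · rintro ⟨h1, h0⟩ j
    rcases Nat.lt_or_ge 3 j with h | h
    · rw [pol_big _ h, pol_big _ h, sub_zero]
      exact zero_mem _
    · interval_cases j
      · rw [pol_c0, pol_c0, ← Int.cast_sub, hmem]
        exact h0
      · rw [pol_c1, pol_c1, ← Int.cast_sub, hmem]
        exact h1
      · rw [pol_c2, pol_c2, sub_zero]
        exact zero_mem _
      · rw [pol_c3, pol_c3, sub_self]
        exact zero_mem _

/-- the weights of the naive height -/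
noncomputable def ωn (j : ℕ) : ℝ :=
  if j = 0 then (27 : ℝ) ^ (-(1 / ((2 : ℕ) : ℝ))) else
    if j = 1 then (4 : ℝ) ^ (-(1 / ((3 : ℕ) : ℝ))) else 1

theorem ωn_pos (j : ℕ) : 0 < ωn j := by
  unfold ωn
  split_ifs <;> positivity

theorem bd_int (n : ℤ) (R : ℝ) : Bd (((n : ℤ) : 𝓞 ℚ) : ℚ) R ↔ |(n : ℝ)| ≤ R := by
  rw [Pool.Agent.H18G.REGG.bd_iff']
  constructor
  · intro h
    have := h Rat.infinitePlace
    rwa [place_apply] at this
  · intro h v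
    rwa [place_apply]

/-- The height. -/
theorem htv_iff {X : ℝ} (hX : 0 < X) (c : ℤ × ℤ) :
    HtV 1 ωn ((X ^ ((1 : ℝ) / 12)) ^ 2) (pol c) ↔
      (Pool.Agent.H93PR.QR.height c : ℝ) ≤ X := by
  have e1 := pow_le_aux (a := 1) (x := |(c.1 : ℝ)|) (y := X) (n := 3) (m := 4) (by norm_num)
    (by norm_num) (abs_nonneg _) hX 4 (by norm_num) rfl rfl
  have e2 := pow_le_aux (a := 1) (x := |(c.2 : ℝ)|) (y := X) (n := 2) (m := 6) (by norm_num)
    (by norm_num) (abs_nonneg _) hX 27 (by norm_num) rfl rfl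
  have e3 : (Pool.Agent.H93PR.QR.height c : ℝ) ≤ X ↔
      4 * |(c.1 : ℝ)| ^ 3 ≤ X ∧ 27 * |(c.2 : ℝ)| ^ 2 ≤ X := by
    rw [Pool.Agent.H93PR.QR.height, Nat.cast_max, max_le_iff]
    push_cast
    rw [Nat.cast_natAbs, Nat.cast_natAbs]
    push_cast
    rfl
  have w0 : ωn 0 = (27 : ℝ) ^ (-(1 / ((2 : ℕ) : ℝ))) := if_pos rfl
  have w1 : ωn 1 = (4 : ℝ) ^ (-(1 / ((3 : ℕ) : ℝ))) := by
    unfold ωn
    rw [if_neg (by norm_num), if_pos rfl]
  have p4 : ((X ^ ((1 : ℝ) / 12)) ^ 2) ^ (2 * 1 + 1 - 1) = (X ^ ((1 : ℝ) / 12)) ^ 4 := by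
    rw [← pow_mul]
  have p6 : ((X ^ ((1 : ℝ) / 12)) ^ 2) ^ (2 * 1 + 1 - 0) = (X ^ ((1 : ℝ) / 12)) ^ 6 := by
    rw [← pow_mul]
  rw [e3, ← e1, ← e2]
  constructor
  · intro h
    have h1 := h.ht 1 (by norm_num)
    have h0 := h.ht 0 (by norm_num)
    rw [pol_c1, bd_int, w1, p4] at h1
    rw [pol_c0, bd_int, w0, p6] at h0
    exact ⟨h1, h0⟩
  · rintro ⟨h1, h0⟩
    refine ⟨pol_mon c, pol_deg c, pol_c2 c, fun j hj => ?_⟩
    rcases Nat.lt_or_ge j 1 with h | h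
    · obtain rfl : j = 0 := by omega
      rw [pol_c0, bd_int, w0, p6]
      exact h0
    · rcases Nat.lt_or_ge j 2 with h' | h'
      · obtain rfl : j = 1 := by omega
        rw [pol_c1, bd_int, w1, p4]
        exact h1
      · obtain rfl : j = 2 := by omega
        rw [pol_c2]
        intro σ
        simp only [map_zero, norm_zero]
        have := ωn_pos 2
        positivity

/-- The numbers. -/
theorem ncard_pol {X : ℝ} (hX : 0 < X) (P : (𝓞 ℚ)[X] → Prop) :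
    {f : (𝓞 ℚ)[X] | HtV 1 ωn ((X ^ ((1 : ℝ) / 12)) ^ 2) f ∧ P f}.ncard =
      {c : ℤ × ℤ | (Pool.Agent.H93PR.QR.height c : ℝ) ≤ X ∧ P (pol c)}.ncard := by
  rw [← Set.ncard_image_of_injective _ pol_inj]
  congr 1
  ext f
  constructor
  · rintro ⟨h1, h2⟩
    obtain ⟨c, rfl⟩ := pol_surj h1.mon h1.deg h1.tr
    exact ⟨c, ⟨(htv_iff hX c).1 h1, h2⟩, rfl⟩
  · rintro ⟨c, ⟨h1, h2⟩, rfl⟩
    exact ⟨(htv_iff hX c).2 h1, h2⟩

end Pool.Agent.H82.NR
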